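import Pool.Agent.Helper54.SP.StmtsP

set_option autoImplicit false

/-! Modules AMX, FB2, FB3, HULF, HUL, ADJ0, ADJ. -/

namespace Pool.Agent.Helper54.SP

open Finset

theorem st_AMX : ST_AMX := by
  intro ρ l hl hnd hinj
  have key : amax ρ l < l.length ∧ (∀ j ∈ l, ρ j ≤ ρ (l.getD (amax ρ l) 0)) := by
    clear hnd hinj
    induction l with
    | nil => exact absurd rfl hl
    | cons a l ih =>
      unfold amax
      split_ifs with h
      · rw [List.all_eq_true] at h
        refine ⟨by rw [List.length_cons]; omega, fun j hj => ?_⟩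
        rw [List.getD_cons_zero]
        rw [List.mem_cons] at hj
        rcases hj with rfl | hj
        · exact le_refl _
        · exact of_decide_eq_true (h j hj)
      · have hne : l ≠ [] := by
          rintro rfl
          exact h rfl
        obtain ⟨h1, h2⟩ := ih hne
        refine ⟨by rw [List.length_cons]; omega, fun j hj => ?_⟩
        rw [List.getD_cons_succ]
        rw [List.mem_cons] at hj
        rcases hj with rfl | hj
        · by_contra hlt
          apply h
          rw [List.all_eq_true]
          intro b hb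
          have h3 := h2 b hb
          exact decide_eq_true (by omega)
        · exact h2 j hj
  refine ⟨key.1, key.2, ?_⟩
  intro i hi hmax
  have e1 : l.getD (amax ρ l) 0 = l[amax ρ l]'key.1 := List.getD_eq_getElem _ _ key.1
  have e2 : l.getD i 0 = l[i] := List.getD_eq_getElem _ _ hi
  have m1 : l.getD (amax ρ l) 0 ∈ l := by rw [e1]; exact List.getElem_mem key.1
  have m2 : l.getD i 0 ∈ l := by rw [e2]; exact List.getElem_mem hi
  have h1 := key.2 _ m2
  have h2 := hmax _ m1
  have h3 := hinj _ m1 _ m2 (le_antisymm h2 h1)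
  rw [e1, e2] at h3
  exact (hnd.getElem_inj_iff).mp h3

theorem fb_amax (ρ : ℕ → ℕ) (l₁ l₂ : List ℕ) (a : ℕ) (h : ∀ i ∈ l₁ ++ l₂, ρ i < ρ a) :
    amax ρ (l₁ ++ a :: l₂) = l₁.length := by
  induction l₁ with
  | nil =>
    rw [List.nil_append]
    unfold amax
    rw [if_pos]
    · rfl
    · rw [List.all_eq_true]
      intro b hb
      exact decide_eq_true (h b hb).le
  | cons x l₁ ih =>
    rw [List.cons_append]
    unfold amax
    rw [if_neg, ih (fun i hi => h i (List.mem_cons_of_mem x hi)), List.length_cons]
    rw [List.all_eq_true]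
    intro hall
    have h1 := of_decide_eq_true (hall a (by
      rw [List.mem_append, List.mem_cons]
      exact Or.inr (Or.inl rfl)))
    have h2 := h x List.mem_cons_self
    omega

theorem fb_step (N m c : ℕ) (σ : List ℕ → Bool) (ρ : ℕ → ℕ → ℕ) (hK : KeyOK N m ρ) (hc : c < m)
    (l₁ l₂ : List ℕ) (h : ∀ i ∈ l₁ ++ l₂, i < N + c) :
    chi σ ρ (c + 1) (l₁ ++ (N + c) :: l₂) =
      xor (decide ((l₁.length + (l₁.length + l₂.length)) % 2 = 1)) (chi σ ρ c (l₁ ++ l₂)) := by
  have ha := fb_amax (ρ c) l₁ l₂ (N + c) (fun i hi => (hK c hc).2.1 i (h i hi))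
  change lexs (ρ c) (chi σ ρ c) (l₁ ++ (N + c) :: l₂) = _
  unfold lexs
  rw [ha]
  have h1 : (l₁ ++ (N + c) :: l₂).length - 1 = l₁.length + l₂.length := by
    rw [List.length_append, List.length_cons]
    omega
  have h2 : (l₁ ++ (N + c) :: l₂).eraseIdx l₁.length = l₁ ++ l₂ := by
    rw [List.eraseIdx_append_of_length_le (le_refl _), Nat.sub_self, List.eraseIdx_cons_zero]
  rw [h1, h2]

theorem fb_apx_succ (N c : ℕ) : apx N (c + 1) = apx N c ++ [N + c] := by
  unfold apx
  rw [List.range_succ, List.map_append, List.map_singleton]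

theorem fb_apx_len (N c : ℕ) : (apx N c).length = c := by
  unfold apx
  rw [List.length_map, List.length_range]

theorem fb_apx_mem (N c i : ℕ) : i ∈ apx N c ↔ N ≤ i ∧ i < N + c := by
  unfold apx
  rw [List.mem_map]
  constructor
  · rintro ⟨j, hj, rfl⟩
    rw [List.mem_range] at hj
    omega
  · rintro ⟨h1, h2⟩
    exact ⟨i - N, by rw [List.mem_range]; omega, by omega⟩

theorem st_FB2 : ST_FB2 := by
  intro m N σ ρ c
  induction c with
  | zero =>
    intro s _ _ _ _ _
    unfold apx
    rw [List.range_zero, List.map_nil, List.append_nil]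
    rfl
  | succ c ih =>
    intro s hK hc hs hsN hnd
    rw [fb_apx_succ, ← List.append_assoc, fb_step N m c σ ρ hK (by omega) (s ++ apx N c) []
      (by
        intro i hi
        rw [List.append_nil, List.mem_append, fb_apx_mem] at hi
        rcases hi with hi | hi
        · have := hsN i hi
          omega
        · omega)]
    rw [List.append_nil, ih s hK (by omega) hs hsN hnd, List.length_append, hs, fb_apx_len,
      List.length_nil]
    have h1 : (3 + c + (3 + c + 0)) % 2 ≠ 1 := by omega
    rw [decide_eq_false h1, Bool.false_xor]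

theorem st_FB3 : ST_FB3 := by
  intro m N σ ρ c
  induction c with
  | zero =>
    intro s x _ _ _ _ _ _
    unfold apx
    rw [List.range_zero, List.map_nil, List.append_nil, decide_eq_false (by omega),
      Bool.false_xor]
    rfl
  | succ c ih =>
    intro s x hK hc hs hsN hx hnd
    have h0 : s ++ apx N (c + 1) ++ [x] = (s ++ apx N c) ++ (N + c) :: [x] := by
      rw [fb_apx_succ]
      simp only [List.append_assoc, List.cons_append, List.nil_append]
    rw [h0, fb_step N m c σ ρ hK (by omega) (s ++ apx N c) [x]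
      (by
        intro i hi
        rw [List.mem_append, List.mem_append, fb_apx_mem, List.mem_singleton] at hi
        rcases hi with (hi | hi) | hi
        · have := hsN i hi
          omega
        · omega
        · omega)]
    rw [ih s x hK (by omega) hs hsN hx hnd, List.length_append, hs, fb_apx_len,
      List.length_singleton]
    have h1 : (2 + c + (2 + c + 1)) % 2 = 1 := by omega
    rw [decide_eq_true h1, Bool.true_xor]
    by_cases h2 : c % 2 = 1
    · have h3 : (c + 1) % 2 ≠ 1 := by omega
      rw [decide_eq_true h2, decide_eq_false h3, Bool.true_xor, Bool.false_xor, Bool.not_not]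
    · have h3 : (c + 1) % 2 = 1 := by omega
      rw [decide_eq_false h2, decide_eq_true h3, Bool.true_xor, Bool.false_xor]

theorem st_HULF : ST_HULF := by
  intro m N σ ρ o o' hK ho ho' hoo hσ x y hx hy hxg hyg
  have hlt : ∀ z, z < N + m → z ∉ [o, o'] ++ apx N m → z < N ∧ z ≠ o ∧ z ≠ o' := by
    intro z hz hzg
    rw [List.mem_append, fb_apx_mem, List.mem_cons, List.mem_singleton] at hzg
    push Not at hzg
    refine ⟨?_, hzg.1.1, hzg.1.2⟩
    by_contra h
    have := hzg.2 (by omega)
    omega
  obtain ⟨x1, x2, x3⟩ := hlt x hx hxg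
  obtain ⟨y1, y2, y3⟩ := hlt y hy hyg
  have hs : ∀ i ∈ [o, o'], i < N := by
    intro i hi
    rw [List.mem_cons, List.mem_singleton] at hi
    rcases hi with rfl | rfl
    · exact ho
    · exact ho'
  have hnd : ∀ z, z ≠ o → z ≠ o' → ([o, o'] ++ [z]).Nodup := by
    intro z h1 h2
    simp only [List.cons_append, List.nil_append, List.nodup_cons, List.mem_cons, List.not_mem_nil,
      or_false, not_or, List.nodup_nil, and_true, not_false_eq_true]
    exact ⟨⟨hoo, h1.symm⟩, h2.symm⟩
  rw [st_FB3 m N σ ρ m [o, o'] x hK (le_refl _) rfl hs x1 (hnd x x2 x3),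
    st_FB3 m N σ ρ m [o, o'] y hK (le_refl _) rfl hs y1 (hnd y y2 y3)]
  have h := hσ x y x1 y1 x2 x3 y2 y3
  have h1 : [o, o'] ++ [x] = [o, o', x] := rfl
  have h2 : [o, o'] ++ [y] = [o, o', y] := rfl
  rw [h1, h2, h]

theorem st_HUL (hDMV : ST_DMV) : ST_HUL := by
  intro N m X o o' x y ho ho' hx hy hxo hxo' hyo hyo' hOS
  have hmem : ∀ z, z < N → z ≠ o → z ≠ o' → z ∉ [o, o'] ++ apx N m := by
    intro z h1 h2 h3 h4
    rw [List.mem_append, fb_apx_mem, List.mem_cons, List.mem_singleton] at h4
    rcases h4 with (h4 | h4) | h4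
    · exact h2 h4
    · exact h3 h4
    · omega
  have h := hOS x y (by omega) (by omega) (hmem x hx hxo hxo') (hmem y hy hyo hyo')
  have hmv : ∀ z, dt (3 + m) X ([o, o'] ++ apx N m ++ [z]) = (-1) ^ m * br N m X o o' z := by
    intro z
    have h1 := hDMV (3 + m) X [o, o'] (apx N m) [] z (by
      simp only [List.append_nil, List.length_append, List.length_cons, List.length_nil,
        fb_apx_len]
      omega)
    rw [List.append_nil, fb_apx_len] at h1
    rw [List.append_assoc]
    exact h1
  rw [hmv, hmv] at h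
  have h2 : ((-1 : ℝ)) ^ m * br N m X o o' x * ((-1) ^ m * br N m X o o' y) =
      br N m X o o' x * br N m X o o' y := by
    have h3 : ((-1 : ℝ)) ^ m * (-1) ^ m = 1 := by
      rw [← mul_pow]
      norm_num
    calc ((-1 : ℝ)) ^ m * br N m X o o' x * ((-1) ^ m * br N m X o o' y)
        = ((-1) ^ m * (-1) ^ m) * (br N m X o o' x * br N m X o o' y) := by ring
      _ = _ := by rw [h3, one_mul]
  rw [h2] at h
  exact h

theorem adj_split (N m c : ℕ) (hc : c < m) : ∃ R : List ℕ, R.length = m - 1 - c ∧
    apx N m = apx N c ++ (N + c) :: R ∧ aex N m c = apx N c ++ R := by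
  obtain ⟨k, rfl⟩ : ∃ k, m = c + (1 + k) := ⟨m - 1 - c, by omega⟩
  refine ⟨(List.range k).map (fun j => N + (c + (1 + j))), ?_, ?_, ?_⟩
  · rw [List.length_map, List.length_range]
    omega
  · unfold apx
    rw [List.range_add, List.range_add]
    simp only [List.map_append, List.map_map, List.range_one, List.map_cons, List.map_nil,
      List.cons_append, List.nil_append, add_zero]
    rfl
  · have h1 : apx N (c + (1 + k)) = apx N c ++ (N + c) ::
        (List.range k).map (fun j => N + (c + (1 + j))) := by
      unfold apx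
      rw [List.range_add, List.range_add]
      simp only [List.map_append, List.map_map, List.range_one, List.map_cons, List.map_nil,
        List.cons_append, List.nil_append, add_zero]
      rfl
    unfold aex
    rw [h1, List.filter_append, List.filter_cons_of_neg (by simp only [ne_eq, not_true_eq_false,
      decide_false, Bool.false_eq_true, not_false_eq_true])]
    rw [List.filter_eq_self.mpr, List.filter_eq_self.mpr]
    · intro a ha
      obtain ⟨j, _, rfl⟩ := List.mem_map.mp ha
      exact decide_eq_true (by omega)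
    · intro a ha
      rw [fb_apx_mem] at ha
      exact decide_eq_true (by omega)

theorem adj_mem (N m c i : ℕ) : i ∈ aex N m c ↔ (N ≤ i ∧ i < N + m) ∧ i ≠ N + c := by
  unfold aex
  rw [List.mem_filter, fb_apx_mem, decide_eq_true_iff]

theorem adj_fan (hDMV : ST_DMV) (N m : ℕ) (X : ℕ → ℕ → ℝ) (c o p q : ℕ) (hc : c < m) :
    dt (3 + m) X (([o, p, q] ++ aex N m c) ++ [N + c]) = (-1) ^ (m - 1 - c) * br N m X o p q := by
  obtain ⟨R, h1, h2, h3⟩ := adj_split N m c hc
  have h4 := hDMV (3 + m) X ([o, p, q] ++ apx N c) R [] (N + c) (by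
    simp only [List.append_nil, List.length_append, List.length_cons, List.length_nil,
      fb_apx_len, h1]
    omega)
  rw [List.append_nil, h1] at h4
  rw [h3]
  unfold br
  rw [h2]
  have e1 : ([o, p, q] ++ (apx N c ++ R)) ++ [N + c] =
      ([o, p, q] ++ apx N c) ++ (R ++ [N + c]) := by
    simp only [List.append_assoc]
  have e2 : [o, p, q] ++ (apx N c ++ (N + c) :: R) = ([o, p, q] ++ apx N c) ++ (N + c) :: R := by
    simp only [List.append_assoc]
  rw [e1, e2]
  exact h4

theorem adj_apex (N m c o p q : ℕ) (hc : c < m) (ho : o < N) (hp : p < N) (hq : q < N) :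
    N + c ∉ [o, p, q] ++ aex N m c := by
  rw [List.mem_append, adj_mem]
  simp only [List.mem_cons, List.not_mem_nil, or_false]
  rintro ((h | h | h) | h)
  · omega
  · omega
  · omega
  · exact h.2 rfl

theorem st_ADJ0 (hDMV : ST_DMV) : ST_ADJ0 := by
  intro N m X c o p q hc ho hp hq hOS h0
  have ha := adj_apex N m c o p q hc ho hp hq
  have h := hOS (N + c) (N + c) (by omega) (by omega) ha ha
  rw [adj_fan hDMV N m X c o p q hc, h0, mul_zero, mul_zero] at h
  exact lt_irrefl _ h

theorem st_ADJ (hDMV : ST_DMV) : ST_ADJ := by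
  intro N m X c o p q r hc hnd ho hp hq hr h1 h2
  simp only [List.nodup_cons, List.mem_cons, List.not_mem_nil, or_false, not_or, List.nodup_nil,
    and_true, not_false_eq_true] at hnd
  obtain ⟨⟨op, oq, or'⟩, ⟨pq, pr⟩, qr⟩ := hnd
  have a1 := adj_apex N m c o p q hc ho hp hq
  have a2 := adj_apex N m c o q r hc ho hq hr
  have m1 : r ∉ [o, p, q] ++ aex N m c := by
    rw [List.mem_append, adj_mem]
    simp only [List.mem_cons, List.not_mem_nil, or_false]
    rintro ((h | h | h) | h)
    · exact or' h.symm
    · exact pr h.symm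
    · exact qr h.symm
    · omega
  have m2 : p ∉ [o, q, r] ++ aex N m c := by
    rw [List.mem_append, adj_mem]
    simp only [List.mem_cons, List.not_mem_nil, or_false]
    rintro ((h | h | h) | h)
    · exact op h.symm
    · exact pq h
    · exact pr h
    · omega
  have g1 := h1 (N + c) r (by omega) (by omega) a1 m1
  have g2 := h2 (N + c) p (by omega) (by omega) a2 m2
  have hlen : (aex N m c).length = m - 1 := by
    obtain ⟨R, h1, h2, h3⟩ := adj_split N m c hc
    rw [h3, List.length_append, fb_apx_len, h1]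
    omega
  have e1 := hDMV (3 + m) X [o, p, q] (aex N m c) [] r (by
    simp only [List.append_nil, List.length_append, List.length_cons, List.length_nil, hlen]
    omega)
  have e2 := hDMV (3 + m) X [o, q, r] (aex N m c) [] p (by
    simp only [List.append_nil, List.length_append, List.length_cons, List.length_nil, hlen]
    omega)
  have e3 := hDMV (3 + m) X [o] [q, r] (aex N m c) p (by
    simp only [List.length_append, List.length_cons, List.length_nil, hlen]
    omega)
  have hZ : dt (3 + m) X ([o, p, q] ++ aex N m c ++ [r]) =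
      dt (3 + m) X ([o, q, r] ++ aex N m c ++ [p]) := by
    rw [List.append_assoc, List.append_assoc, e1, e2, List.append_nil]
    have e4 : [o, q, r] ++ p :: aex N m c = [o] ++ ([q, r] ++ p :: aex N m c) := rfl
    have e5 : [o, p, q] ++ r :: aex N m c = [o] ++ p :: ([q, r] ++ aex N m c) := rfl
    rw [e4, e5, e3]
    norm_num
  rw [adj_fan hDMV N m X c o p q hc] at g1
  rw [adj_fan hDMV N m X c o q r hc, ← hZ] at g2
  generalize dt (3 + m) X ([o, p, q] ++ aex N m c ++ [r]) = Z at g1 g2
  have h3 := mul_pos g1 g2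
  have h4 : ((-1 : ℝ)) ^ (m - 1 - c) * (-1) ^ (m - 1 - c) = 1 := by
    rw [← mul_pow]
    norm_num
  have h5 : (-1 : ℝ) ^ (m - 1 - c) * br N m X o p q * Z *
      ((-1) ^ (m - 1 - c) * br N m X o q r * Z) = (br N m X o p q * br N m X o q r) * (Z * Z) := by
    calc (-1 : ℝ) ^ (m - 1 - c) * br N m X o p q * Z *
      ((-1) ^ (m - 1 - c) * br N m X o q r * Z)
        = ((-1) ^ (m - 1 - c) * (-1) ^ (m - 1 - c)) *
          ((br N m X o p q * br N m X o q r) * (Z * Z)) := by ring
      _ = _ := by rw [h4, one_mul]
  rw [h5] at h3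
  by_contra hneg
  exact absurd h3 (not_lt.mpr (mul_nonpos_of_nonpos_of_nonneg (not_lt.mp hneg)
    (mul_self_nonneg Z)))

end Pool.Agent.Helper54.SP
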